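import Pool.Agent.H78.PB.Stm
import Pool.Agent.N892.BW.ENU

/-!
The upper energy inequality for real exponents: integration of the numerical inequality.
-/

set_option autoImplicit false

open MeasureTheory ENNReal Filter Topology Complex
open scoped ComplexConjugate ContDiff

namespace Pool.Agent.Lead.PB.ENU

open Pool.Agent.N892.BW Pool.Agent.N892.BW.ENU Pool.Agent.H78.PB

lemma enorm_rpow (z : ℂ) {r : ℝ} (hr : 0 ≤ r) : ‖z‖ₑ ^ r = ENNReal.ofReal (‖z‖ ^ r) := by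
  rw [← ENNReal.ofReal_rpow_of_nonneg (norm_nonneg z) hr, ofReal_norm]

lemma pow_bound {M y r : ℝ} (hy : 0 ≤ y) (hM : y ≤ M) (hr : 1 ≤ r) : y ^ r ≤ M ^ (r - 1) * y := by
  have e : y ^ r = y ^ (r - 1) * y := by
    have := Real.rpow_add_one' hy (show (r - 1) + 1 ≠ 0 by linarith)
    rwa [sub_add_cancel] at this
  rw [e]
  exact mul_le_mul_of_nonneg_right (Real.rpow_le_rpow hy hM (by linarith)) hy

theorem t (hbas : S_BAS) (h1 : R_NUM) : R_ENU := by
  intro m ε hm hε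
  obtain ⟨C, hC0, hC⟩ := h1 m ε hm hε
  refine ⟨C, hC0, ?_⟩
  intro b b' h₁ h₂ hh₁ hh₂
  obtain ⟨c1, -, ⟨-, i1, M1, b1⟩, -, -⟩ := hbas b h₁ hh₁
  obtain ⟨c2, -, ⟨-, i2, M2, b2⟩, -, -⟩ := hbas b' h₂ hh₂
  have hadd : Fi (fun ξ => h₁ ξ + h₂ ξ) = fun x => Fi h₁ x + Fi h₂ x := funext (Fi_add hh₁ hh₂)
  rw [hadd]
  generalize Fi h₁ = u at *
  generalize Fi h₂ = v at *
  have hm1 := hm.1
  have hM1 : 0 ≤ M1 := (norm_nonneg _).trans (b1 0)
  have hM2 : 0 ≤ M2 := (norm_nonneg _).trans (b2 0)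
  have cp : ∀ (f : ℂ → ℂ) (r : ℝ), Continuous f → 0 ≤ r → Continuous (fun x => ‖f x‖ ^ r) :=
    fun f r hf hr => hf.norm.rpow_const fun x => Or.inr hr
  -- integrability
  have jj : ∀ (f : ℂ → ℂ) (M : ℝ), Continuous f → Integrable f → (∀ x, ‖f x‖ ≤ M) →
      Integrable (fun x => ‖f x‖ ^ (2 * m)) := by
    intro f M hf hi hb
    refine int_of_le (K := M ^ (2 * m - 1)) hi (cp f _ hf (by linarith)) fun x => ?_
    rw [abs_of_nonneg (by positivity)]
    exact pow_bound (norm_nonneg _) (hb x) (by linarith)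
  have j1 := jj u M1 c1 i1 b1
  have j3 := jj v M2 c2 i2 b2
  have j0 := jj (fun x => u x + v x) (M1 + M2) (c1.add c2) (i1.add i2)
    fun x => (norm_add_le _ _).trans (add_le_add (b1 x) (b2 x))
  have j2 : Integrable (fun x => ‖u x‖ ^ (2 * m - 2) * (conj (u x) * v x).re) := by
    refine int_of_le (K := M1 ^ (2 * m - 2) * M1) i2 ?_ fun x => ?_
    · refine (cp u _ c1 (by linarith)).mul ?_
      exact Complex.continuous_re.comp ((Complex.continuous_conj.comp c1).mul c2)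
    · rw [abs_mul, abs_of_nonneg (Real.rpow_nonneg (norm_nonneg _) _)]
      have e1 : |(conj (u x) * v x).re| ≤ ‖u x‖ * ‖v x‖ := by
        refine (Complex.abs_re_le_norm _).trans ?_
        rw [norm_mul, RCLike.norm_conj]
      calc ‖u x‖ ^ (2 * m - 2) * |(conj (u x) * v x).re| ≤ M1 ^ (2 * m - 2) * (M1 * ‖v x‖) := by
            refine mul_le_mul (Real.rpow_le_rpow (norm_nonneg _) (b1 x) (by linarith)) (e1.trans ?_)
              (abs_nonneg _) (by positivity)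
            exact mul_le_mul_of_nonneg_right (b1 x) (norm_nonneg _)
        _ = _ := by ring
  have j4 : Integrable (fun x => ‖v x‖ ^ 2 * ‖u x‖ ^ (2 * m - 2)) := by
    refine int_of_le (K := M2 * M1 ^ (2 * m - 2)) i2
      ((c2.norm.pow 2).mul (cp u _ c1 (by linarith))) fun x => ?_
    rw [abs_of_nonneg (by positivity)]
    calc ‖v x‖ ^ 2 * ‖u x‖ ^ (2 * m - 2) = (‖v x‖ * ‖u x‖ ^ (2 * m - 2)) * ‖v x‖ := by ring
      _ ≤ (M2 * M1 ^ (2 * m - 2)) * ‖v x‖ := by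
        refine mul_le_mul_of_nonneg_right ?_ (norm_nonneg _)
        exact mul_le_mul (b2 x) (Real.rpow_le_rpow (norm_nonneg _) (b1 x) (by linarith))
          (by positivity) hM2
  -- integration
  have key : ∫ x, ‖u x + v x‖ ^ (2 * m) ≤
      (∫ x, ‖u x‖ ^ (2 * m)) + (1 + ε) * (∫ x, ‖v x‖ ^ (2 * m)) +
        C * (∫ x, ‖v x‖ ^ 2 * ‖u x‖ ^ (2 * m - 2)) +
        2 * m * |∫ x, ‖u x‖ ^ (2 * m - 2) * (conj (u x) * v x).re| := by
    obtain ⟨e0, e1⟩ := int4 j1 j2 j3 j4 (2 * m) (1 + ε) C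
    have e2 := integral_mono j0 e0 fun x => hC (v x) (u x)
    rw [e1] at e2
    have e3 := mul_le_mul_of_nonneg_left
      (le_abs_self (∫ x, ‖u x‖ ^ (2 * m - 2) * (conj (u x) * v x).re)) (show 0 ≤ 2 * m by linarith)
    linarith
  have n0 : ∀ f : ℂ → ℂ, Integrable (fun x => ‖f x‖ ^ (2 * m)) →
      Nr m f = ENNReal.ofReal (∫ x, ‖f x‖ ^ (2 * m)) := by
    intro f hf
    exact conv (fun x => by positivity) hf fun x => enorm_rpow _ (by linarith)
  have n4 : ∫⁻ x, ‖v x‖ₑ ^ 2 * ‖u x‖ₑ ^ (2 * m - 2) =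
      ENNReal.ofReal (∫ x, ‖v x‖ ^ 2 * ‖u x‖ ^ (2 * m - 2)) := by
    refine conv (fun x => by positivity) j4 fun x => ?_
    rw [enorm_pow, enorm_rpow _ (show 0 ≤ 2 * m - 2 by linarith), ENNReal.ofReal_mul (by positivity)]
  have p1 : 0 ≤ ∫ x, ‖u x‖ ^ (2 * m) := integral_nonneg fun x => by positivity
  have p3 : 0 ≤ ∫ x, ‖v x‖ ^ (2 * m) := integral_nonneg fun x => by positivity
  have p4 : 0 ≤ ∫ x, ‖v x‖ ^ 2 * ‖u x‖ ^ (2 * m - 2) := integral_nonneg fun x => by positivity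
  have hm0 : 0 ≤ 2 * m := by linarith
  rw [n0 _ j0, n0 _ j1, n0 _ j3, n4, ← ENNReal.ofReal_mul (by positivity), ← ENNReal.ofReal_mul hC0,
    ← ENNReal.ofReal_add p1 (by positivity), ← ENNReal.ofReal_add (by positivity) (by positivity),
    ← ENNReal.ofReal_add (by positivity) (by positivity)]
  exact ENNReal.ofReal_le_ofReal key

end Pool.Agent.Lead.PB.ENU
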