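import Pool.Agent.H78.PB.Stm

set_option autoImplicit false
open scoped ComplexConjugate

namespace Pool.Agent.Lead.PB

theorem pow_le_quad (m t T : ℝ) (h1 : 11 / 10 ≤ m) (h3 : m ≤ 3) (ht : -1 ≤ t) (hT : t ≤ T)
    (hT0 : 0 ≤ T) : (1 + t) ^ m ≤ 1 + m * t + (3 + T) * t ^ 2 := by
  have hs : 0 ≤ 1 + t := by linarith
  rcases le_total m 2 with hm | hm
  · have e : (1 + t) ^ m = (1 + t) * (1 + t) ^ (m - 1) := by
      rcases eq_or_lt_of_le hs with h | h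
      · rw [← h, Real.zero_rpow (by linarith), zero_mul]
      · rw [← Real.rpow_one_add' hs (by linarith)]; congr 1; ring
    have h := rpow_one_add_le_one_add_mul_self ht (show 0 ≤ m - 1 by linarith) (show m - 1 ≤ 1 by linarith)
    rw [e]
    calc (1 + t) * (1 + t) ^ (m - 1) ≤ (1 + t) * (1 + (m - 1) * t) := mul_le_mul_of_nonneg_left h hs
      _ ≤ 1 + m * t + (3 + T) * t ^ 2 := by nlinarith [sq_nonneg t, mul_nonneg hT0 (sq_nonneg t)]
  · have e : (1 + t) ^ m = (1 + t) ^ 2 * (1 + t) ^ (m - 2) := by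
      rcases eq_or_lt_of_le hs with h | h
      · rw [← h, Real.zero_rpow (by linarith)]; simp
      · rw [← Real.rpow_natCast (1 + t) 2, ← Real.rpow_add h]; congr 1; push_cast; ring
    have h := rpow_one_add_le_one_add_mul_self ht (show 0 ≤ m - 2 by linarith) (show m - 2 ≤ 1 by linarith)
    rw [e]
    calc (1 + t) ^ 2 * (1 + t) ^ (m - 2) ≤ (1 + t) ^ 2 * (1 + (m - 2) * t) :=
          mul_le_mul_of_nonneg_left h (sq_nonneg _)
      _ = 1 + m * t + (1 + 2 * (m - 2)) * t ^ 2 + (m - 2) * (t * t ^ 2) := by ring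
      _ ≤ 1 + m * t + (1 + 2 * (m - 2)) * t ^ 2 + (m - 2) * (T * t ^ 2) := by
          have : t * t ^ 2 ≤ T * t ^ 2 := mul_le_mul_of_nonneg_right hT (sq_nonneg t)
          have := mul_le_mul_of_nonneg_left this (show 0 ≤ m - 2 by linarith)
          linarith
      _ ≤ 1 + m * t + (3 + T) * t ^ 2 := by
          have h1 : 0 ≤ (3 - m) * (T * t ^ 2) := mul_nonneg (by linarith) (mul_nonneg hT0 (sq_nonneg t))
          have h2 : 0 ≤ (3 - m) * t ^ 2 := mul_nonneg (by linarith) (sq_nonneg t)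
          nlinarith

theorem one_add (m ε : ℝ) (h1 : 11 / 10 ≤ m) (h3 : m ≤ 3) (hε : 0 < ε) : ∃ C : ℝ, 0 ≤ C ∧
    ∀ z : ℂ, ‖1 + z‖ ^ (2 * m) ≤ 1 + 2 * m * z.re + (1 + ε) * ‖z‖ ^ (2 * m) + C * ‖z‖ ^ 2 := by
  set R : ℝ := 126 / ε + 1 with hR
  have hR1 : 1 ≤ R := by have : 0 < 126 / ε := by positivity
                         linarith
  have hR0 : 0 < R := by linarith
  have hRe : 126 ≤ ε * R := by rw [hR, mul_add, mul_div_cancel₀ _ hε.ne']; linarith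
  set T : ℝ := 2 * R + R ^ 2 with hT
  have hT0 : 0 ≤ T := by positivity
  refine ⟨m + (3 + T) * (2 + R) ^ 2, by positivity, fun z => ?_⟩
  have hz0 : 0 ≤ ‖z‖ := norm_nonneg z
  have hre : |z.re| ≤ ‖z‖ := Complex.abs_re_le_norm z
  have hre1 := (abs_le.1 hre).1
  have hre2 := (abs_le.1 hre).2
  have hm0 : 0 < m := by linarith
  rcases le_total ‖z‖ R with hz | hz
  · set t : ℝ := 2 * z.re + ‖z‖ ^ 2 with ht
    have hsq : ‖1 + z‖ ^ 2 = 1 + t := by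
      rw [ht, Complex.sq_norm, Complex.sq_norm, Complex.normSq_add]
      simp; ring
    have ht1 : -1 ≤ t := by have := sq_nonneg ‖1 + z‖; linarith
    have ht2 : t ≤ T := by
      have : ‖z‖ ^ 2 ≤ R ^ 2 := pow_le_pow_left₀ hz0 hz 2
      rw [ht, hT]; linarith
    have e : ‖1 + z‖ ^ (2 * m) = (1 + t) ^ m := by
      rw [← hsq, Real.rpow_mul (norm_nonneg _)]; norm_cast
    have h := pow_le_quad m t T h1 h3 ht1 ht2 hT0
    have htt : t ^ 2 ≤ (2 + R) ^ 2 * ‖z‖ ^ 2 := by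
      have ha : |t| ≤ (2 + R) * ‖z‖ := by
        rw [ht]
        calc |2 * z.re + ‖z‖ ^ 2| ≤ |2 * z.re| + |‖z‖ ^ 2| := abs_add_le _ _
          _ = 2 * |z.re| + ‖z‖ * ‖z‖ := by rw [abs_mul, abs_of_nonneg (sq_nonneg ‖z‖)]; norm_num [sq]
          _ ≤ 2 * ‖z‖ + R * ‖z‖ := add_le_add (by linarith) (mul_le_mul_of_nonneg_right hz hz0)
          _ = (2 + R) * ‖z‖ := by ring
      calc t ^ 2 = |t| ^ 2 := (sq_abs t).symm
        _ ≤ ((2 + R) * ‖z‖) ^ 2 := pow_le_pow_left₀ (abs_nonneg _) ha 2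
        _ = _ := by ring
    have hzp : 0 ≤ (1 + ε) * ‖z‖ ^ (2 * m) := by positivity
    rw [e]
    have h4 : (3 + T) * t ^ 2 ≤ (3 + T) * ((2 + R) ^ 2 * ‖z‖ ^ 2) :=
      mul_le_mul_of_nonneg_left htt (by linarith)
    calc (1 + t) ^ m ≤ 1 + m * t + (3 + T) * t ^ 2 := h
      _ ≤ 1 + m * t + (3 + T) * ((2 + R) ^ 2 * ‖z‖ ^ 2) := by linarith
      _ ≤ _ := by rw [ht]; nlinarith
  · have hzpos : 0 < ‖z‖ := by linarith
    have hz1 : 1 ≤ ‖z‖ := by linarith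
    set u : ℝ := 1 / R with hu
    have hu0 : 0 ≤ u := by positivity
    have hu1 : u ≤ 1 := by rw [hu, div_le_one hR0]; exact hR1
    have hue : 126 * u ≤ ε := by rw [hu, mul_one_div, div_le_iff₀ hR0]; exact hRe
    have hn : ‖1 + z‖ ≤ (1 + u) * ‖z‖ := by
      have : 1 ≤ u * ‖z‖ := by rw [hu, one_div, inv_mul_eq_div, le_div_iff₀ hR0]; linarith
      calc ‖1 + z‖ ≤ ‖(1 : ℂ)‖ + ‖z‖ := norm_add_le _ _
        _ = 1 + ‖z‖ := by simp
        _ ≤ _ := by linarith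
    have h6 : (1 + u) ^ (2 * m) ≤ 1 + ε / 2 := by
      calc (1 + u) ^ (2 * m) ≤ (1 + u) ^ (6 : ℝ) :=
            Real.rpow_le_rpow_of_exponent_le (by linarith) (by linarith)
        _ = (1 + u) ^ 6 := by norm_cast
        _ ≤ 1 + 63 * u := by
            have a2 : u ^ 2 ≤ u := by nlinarith
            have a3 : u ^ 3 ≤ u := by nlinarith [pow_nonneg hu0 2]
            have a4 : u ^ 4 ≤ u := by nlinarith [pow_nonneg hu0 3]
            have a5 : u ^ 5 ≤ u := by nlinarith [pow_nonneg hu0 4]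
            have a6 : u ^ 6 ≤ u := by nlinarith [pow_nonneg hu0 5]
            nlinarith
        _ ≤ 1 + ε / 2 := by linarith
    have hA : ‖1 + z‖ ^ (2 * m) ≤ (1 + ε / 2) * ‖z‖ ^ (2 * m) := by
      calc ‖1 + z‖ ^ (2 * m) ≤ ((1 + u) * ‖z‖) ^ (2 * m) :=
            Real.rpow_le_rpow (norm_nonneg _) hn (by linarith)
        _ = (1 + u) ^ (2 * m) * ‖z‖ ^ (2 * m) := Real.mul_rpow (by linarith) hz0
        _ ≤ _ := mul_le_mul_of_nonneg_right h6 (by positivity)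
    have hB : 2 * m * ‖z‖ ≤ ε / 2 * ‖z‖ ^ (2 * m) := by
      have h5 : ‖z‖ * ‖z‖ ≤ ‖z‖ ^ (2 * m) := by
        calc ‖z‖ * ‖z‖ = ‖z‖ ^ (2 : ℝ) := by norm_cast; ring
          _ ≤ _ := Real.rpow_le_rpow_of_exponent_le hz1 (by linarith)
      have h7 : 12 ≤ ε * ‖z‖ := by nlinarith
      nlinarith
    have hC : 0 ≤ (m + (3 + T) * (2 + R) ^ 2) * ‖z‖ ^ 2 := by positivity
    nlinarith

theorem num (m ε : ℝ) (h1 : 11 / 10 ≤ m) (h3 : m ≤ 3) (hε : 0 < ε) : ∃ C : ℝ, 0 ≤ C ∧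
    ∀ a b : ℂ, ‖b + a‖ ^ (2 * m) ≤ ‖b‖ ^ (2 * m) + 2 * m * (‖b‖ ^ (2 * m - 2) * (conj b * a).re) +
    (1 + ε) * ‖a‖ ^ (2 * m) + C * (‖a‖ ^ 2 * ‖b‖ ^ (2 * m - 2)) := by
  obtain ⟨C, hC, h⟩ := one_add m ε h1 h3 hε
  refine ⟨C, hC, fun a b => ?_⟩
  rcases eq_or_ne b 0 with rfl | hb
  · have e1 : (0 : ℝ) ^ (2 * m) = 0 := Real.zero_rpow (by linarith)
    have e2 : (0 : ℝ) ^ (2 * m - 2) = 0 := Real.zero_rpow (by linarith)
    have : 0 ≤ ε * ‖a‖ ^ (2 * m) := by positivity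
    simp only [norm_zero, e1, e2, zero_add]
    nlinarith
  · have hb0 : 0 < ‖b‖ := norm_pos_iff.2 hb
    set z := a / b with hz
    have ha : a = b * z := by rw [hz, mul_div_cancel₀ _ hb]
    have e1 : ‖b + a‖ = ‖b‖ * ‖1 + z‖ := by rw [← norm_mul, mul_add, mul_one, ← ha]
    have e2 : ‖a‖ = ‖b‖ * ‖z‖ := by rw [← norm_mul, ← ha]
    have e3 : (conj b * a).re = ‖b‖ ^ 2 * z.re := by
      rw [ha, ← mul_assoc, ← Complex.normSq_eq_conj_mul_self, Complex.re_ofReal_mul, Complex.sq_norm]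
    have e4 : ‖b‖ ^ (2 * m) = ‖b‖ ^ (2 * m - 2) * ‖b‖ ^ 2 := by
      rw [← Real.rpow_natCast ‖b‖ 2, ← Real.rpow_add hb0]; congr 1; push_cast; ring
    have hp : 0 ≤ ‖b‖ ^ (2 * m) := by positivity
    have hh := mul_le_mul_of_nonneg_left (h z) hp
    rw [e1, e3, Real.mul_rpow hb0.le (norm_nonneg _)]
    calc ‖b‖ ^ (2 * m) * ‖1 + z‖ ^ (2 * m)
        ≤ ‖b‖ ^ (2 * m) * (1 + 2 * m * z.re + (1 + ε) * ‖z‖ ^ (2 * m) + C * ‖z‖ ^ 2) := hh
      _ = ‖b‖ ^ (2 * m) + 2 * m * (‖b‖ ^ (2 * m) * z.re) +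
          (1 + ε) * (‖b‖ ^ (2 * m) * ‖z‖ ^ (2 * m)) + C * (‖b‖ ^ (2 * m) * ‖z‖ ^ 2) := by ring
      _ = _ := by
          rw [e2, Real.mul_rpow hb0.le (norm_nonneg _)]
          congr 1
          · congr 2
            rw [e4]; ring
          · rw [e4]; ring


/-- NUM: a numerical inequality -/
theorem t : Pool.Agent.H78.PB.R_NUM := fun m ε h hε => num m ε h.1 h.2 hε

end Pool.Agent.Lead.PB
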